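import Pool.Agent.Helper40K9.SR.Final

/-! Steiner systems invariant under reflections -/

set_option autoImplicit false

open Finset

namespace Pool.Agent.Results.MP_409a13_co.Reflections

/-- `B` is a Steiner system `S(n,k,r)` on the points of the finite set `X` (so `n = |X|`): the members
of `B` (the blocks) have `k` elements and every `r`-element set of points is contained in exactly one
block. -/
def IsSteiner {X : Type} (k r : ℕ) (B : Finset (Finset X)) : Prop :=
  (∀ b ∈ B, b.card = k) ∧ ∀ T : Finset X, T.card = r → ∃! b, b ∈ B ∧ T ⊆ b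

/-- The map `f` on points maps every block onto a block. -/
def Preserves {X : Type} (B : Finset (Finset X)) (f : X → X) : Prop :=
  ∀ b ∈ B, ∃ c ∈ B, ∀ x, x ∈ c ↔ ∃ y ∈ b, f y = x

open Pool.Agent.Helper40K9 in
lemma conv {X : Type} [DecidableEq X] {k r : ℕ} {B : Finset (Finset X)} (h : IsSteiner k r B) :
    SR.IsSteiner r k {b | b ∈ B} := ⟨h.1, h.2⟩

open Pool.Agent.Helper40K9 in
lemma pres {X : Type} [DecidableEq X] {B : Finset (Finset X)} {f g : X → X} (h : Preserves B f)
    (hfg : ∀ x, f x = g x) : SR.Pres {b | b ∈ B} g := by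
  intro b hb
  obtain ⟨c, hc, hcb⟩ := h b hb
  have : b.image g = c := by
    ext x
    rw [mem_image, hcb]
    simp only [hfg]
  rw [this]
  exact hc

/-- the matrix with the given entries -/
def gl {K : Type} [Field K] (a b c d : K) (h : a * d - b * c ≠ 0) : GL (Fin 2) K :=
  Matrix.GeneralLinearGroup.mkOfDetNeZero !![a, b; c, d] (by rwa [Matrix.det_fin_two_of])

lemma gl_smul {K : Type} [Field K] [DecidableEq K] (a b c d : K) (h : a * d - b * c ≠ 0)
    (x : OnePoint K) : gl a b c d h • x = Pool.Agent.Helper40K9.SR.mob a b c d x := by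
  induction x with
  | infty =>
    rw [OnePoint.smul_infty_eq_ite]
    rfl
  | coe x =>
    rw [OnePoint.smul_some_eq_ite]
    rfl

/-- **Steiner systems invariant under reflections.**  Notation: `S(n,k,r)` has `n` points, blocks with
`k` elements, strength `r`.

(1) Let `a`, `b` be automorphisms of an `S(n,k,r)`, `0 < r < k ≤ n`, with `a² = b² = 1`.  If each of
them has exactly one fixed point, then `k ≡ r (mod 2)`, or `r` is even and the orbit of the fixed point
of `a` under the powers of `ba` has at most `k` elements.  If each of them has exactly two fixed points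
and they have a fixed point `o` in common, then `k ≡ r (mod 2)`, or `r` is odd and the orbit of the
other fixed point of `a` under the powers of `ba` has at most `k - 1` elements.

(2) Let `G` be a finite abelian group.  (i) If `|G|` is odd and the translations and the inversion of
`G` are automorphisms of an `S(|G|,k,r)` on the elements of `G`, then `k ≡ r (mod 2)`, or `r` is even and
every element of `G` has order at most `k`.  (ii) For `|G|` odd or even: if moreover `H` is a subgroup
with `r = 2 |H|` then every element of `G / H` has order at most `k / |H|`.  (iii) If `|G|` is odd and the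
same permutations, with a further point fixed, are automorphisms of an `S(|G|+1,k,r)`, then
`k ≡ r (mod 2)`, or `r` is odd and every element of `G` has order at most `k - 1`.

(3) Let `K` be a field with `q` elements and characteristic `p`, and take an `S(q+1,k,r)`,
`2 ≤ r < k ≤ q`, on the points of the projective line over `K` which is invariant under `PSL(2,q)`.
Then `k ≡ r (mod 2)`, or `r` is odd and `q ≡ 3 (mod 4)`, or `r ≡ 3`, `q ≡ 1 (mod 4)` and `k ≥ p + 1`.
If `k = r + 1` then `r` is odd and `q ≡ 3 (mod 4)`, or `r = p = 3`.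

(4) If it is invariant under `PGL(2,q)`, then `k ≡ r (mod 2)`, or `q` is odd, `r ≡ 3 (mod 4)` and
`k ≥ p + 1`.  Moreover `r ≠ 2 d + 2` for every divisor `d` of `q - 1`. -/
theorem result :
    (∀ (X : Type) [Fintype X] (k r : ℕ) (B : Finset (Finset X)) (a b : Equiv.Perm X),
      IsSteiner k r B → 0 < r → r < k → k ≤ Fintype.card X →
      Preserves B a → Preserves B b → a * a = 1 → b * b = 1 →
      (∀ α β : X, (∀ x, a x = x ↔ x = α) → (∀ x, b x = x ↔ x = β) →
        k ≡ r [MOD 2] ∨ (Even r ∧ Function.minimalPeriod (b * a) α ≤ k)) ∧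
      (∀ o α β : X, α ≠ o → β ≠ o → (∀ x, a x = x ↔ x = o ∨ x = α) →
        (∀ x, b x = x ↔ x = o ∨ x = β) →
        k ≡ r [MOD 2] ∨ (Odd r ∧ Function.minimalPeriod (b * a) α + 1 ≤ k))) ∧
    (∀ (G : Type) [AddCommGroup G] [Fintype G] (k r : ℕ), 0 < r → r < k →
      (∀ B : Finset (Finset G), IsSteiner k r B → k ≤ Fintype.card G →
        (∀ g : G, Preserves B (fun x => x + g)) → Preserves B (fun x => -x) →
        (Odd (Fintype.card G) →
          k ≡ r [MOD 2] ∨ (Even r ∧ ∀ x : G, addOrderOf x ≤ k)) ∧
        (∀ (H : AddSubgroup G) (y : G), r = 2 * Nat.card H →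
          addOrderOf (y : G ⧸ H) * Nat.card H ≤ k)) ∧
      (∀ B : Finset (Finset (Option G)), IsSteiner k r B → k ≤ Fintype.card G + 1 →
        (∀ g : G, Preserves B (Option.map (fun x => x + g))) →
        Preserves B (Option.map (fun x => -x)) →
        Odd (Fintype.card G) →
          k ≡ r [MOD 2] ∨ (Odd r ∧ ∀ x : G, addOrderOf x + 1 ≤ k))) ∧
    (∀ (K : Type) [Field K] [Fintype K] [DecidableEq K] (k r : ℕ)
      (B : Finset (Finset (OnePoint K))),
      IsSteiner k r B → 2 ≤ r → r < k → k ≤ Fintype.card K →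
      ((∀ g : GL (Fin 2) K, Matrix.det (g : Matrix (Fin 2) (Fin 2) K) = 1 →
          Preserves B (fun x => g • x)) →
        (k ≡ r [MOD 2] ∨ (Odd r ∧ (Fintype.card K % 4 = 3 ∨
          (Fintype.card K % 4 = 1 ∧ r % 4 = 3 ∧ ringChar K + 1 ≤ k)))) ∧
        (k = r + 1 → (Odd r ∧ Fintype.card K % 4 = 3) ∨ (r = 3 ∧ ringChar K = 3))) ∧
      ((∀ g : GL (Fin 2) K, Preserves B (fun x => g • x)) →
        (k ≡ r [MOD 2] ∨ (Odd (Fintype.card K) ∧ r % 4 = 3 ∧ ringChar K + 1 ≤ k)) ∧
        ∀ d : ℕ, d ∣ Fintype.card K - 1 → r ≠ 2 * d + 2)) := by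
  classical
  refine ⟨?_, ?_, ?_⟩
  · intro X _ k r B a b hB hr hrk hk pa pb ha hb
    have h1 := conv hB
    have h2 := pres pa (fun x => rfl)
    have h3 := pres pb (fun x => rfl)
    refine ⟨fun α β hα hβ => ?_, fun o α β hα hβ h4 h5 => ?_⟩
    · exact Pool.Agent.Helper40K9.SR.two_one h1 hrk (by omega) a b h2 h3 ha hb α β hα hβ
    · exact Pool.Agent.Helper40K9.SR.two_two h1 hr hrk (by omega) a b h2 h3 ha hb o α β hα.symm
        hβ.symm h4 h5
  · intro G _ _ k r hr hrk
    refine ⟨fun B hB hk htr hneg => ⟨fun hG => ?_, fun H y hH => ?_⟩, fun B hB hk htr hneg hG => ?_⟩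
    · exact Pool.Agent.Helper40K9.SR.abel_one hG (conv hB) hrk (by omega)
        (fun g => pres (htr g) (fun x => rfl)) (pres hneg (fun x => rfl))
    · exact Pool.Agent.Helper40K9.SR.abel_sub (conv hB) hrk
        (fun g => pres (htr g) (fun x => rfl)) (pres hneg (fun x => rfl)) H hH y
    · exact Pool.Agent.Helper40K9.SR.abel_two hG (conv hB) hr hrk (by omega)
        (fun g => pres (htr g) (fun x => rfl)) (pres hneg (fun x => rfl))
  · intro K _ _ _ k r B hB hr hrk hk
    have h1 : Pool.Agent.Helper40K9.SR.IsSteiner (X := Option K) r k {b | b ∈ B} := conv hB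
    refine ⟨fun hg => ?_, fun hg => ?_⟩
    · have h2 : Pool.Agent.Helper40K9.SR.PSL (F := K) {b | b ∈ B} := by
        intro a b c d hd
        refine pres (hg (gl a b c d (by rw [hd]; exact one_ne_zero)) ?_) (fun x => gl_smul _ _ _ _ _ x)
        exact (Matrix.det_fin_two_of a b c d).trans hd
      refine ⟨Pool.Agent.Helper40K9.SR.psl_one h1 hr hrk (by omega) h2, ?_⟩
      rintro rfl
      rcases Pool.Agent.Helper40K9.SR.psl_two h1 hr (by omega) h2 with h | h
      · exact Or.inl ⟨h.2, h.1⟩
      · exact Or.inr h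
    · have h2 : Pool.Agent.Helper40K9.SR.PGL (F := K) {b | b ∈ B} := by
        intro a b c d hd
        exact pres (hg (gl a b c d hd)) (fun x => gl_smul _ _ _ _ _ x)
      exact ⟨Pool.Agent.Helper40K9.SR.pgl_one h1 hr hrk (by omega) h2,
        fun d hd => Pool.Agent.Helper40K9.SR.pgl_two h1 hrk (by omega) h2 d hd⟩

end Pool.Agent.Results.MP_409a13_co.Reflections
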